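import Pool.Agent.W662.CB.Stmts

set_option autoImplicit false

open MeasureTheory Filter Topology Complex
open scoped InnerProductSpace ENNReal

namespace Pool.Agent.W28.CB

open Pool.Agent.W662.CB

theorem upd_sum {ι κ E : Type} [Fintype ι] [DecidableEq ι] [Fintype κ] [AddCommGroup E]
    (F : (ι → κ) → E) (n : ι) :
    ∑ k : ι → κ, ∑ b : κ, F (Function.update k n b) = Fintype.card κ • ∑ k, F k := by
  have hinv : Function.Involutive
      (fun p : (ι → κ) × κ => (Function.update p.1 n p.2, p.1 n)) := by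
    rintro ⟨k, b⟩
    simp
  have h1 : ∑ p : (ι → κ) × κ, F (Function.update p.1 n p.2) = ∑ p : (ι → κ) × κ, F p.1 :=
    Equiv.sum_comp hinv.toPerm (fun p : (ι → κ) × κ => F p.1)
  rw [Fintype.sum_prod_type, Fintype.sum_prod_type] at h1
  rw [h1]
  simp [Finset.smul_sum]

variable {H : Type} [NormedAddCommGroup H] [InnerProductSpace ℂ H]

theorem orth_sum {ι κ : Type} [Fintype ι] [DecidableEq ι] [Fintype κ] [Nonempty κ]
    (Y : ι → κ → H) (m n : ι) (hmn : m ≠ n) (hY : ∑ b, Y n b = 0) :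
    ∑ k : ι → κ, ⟪Y m (k m), Y n (k n)⟫_ℂ = 0 := by
  have h := upd_sum (fun k : ι → κ => ⟪Y m (k m), Y n (k n)⟫_ℂ) n
  have h2 : ∑ k : ι → κ, ∑ b : κ,
      ⟪Y m ((Function.update k n b) m), Y n ((Function.update k n b) n)⟫_ℂ = 0 := by
    apply Finset.sum_eq_zero
    intro k _
    have : ∀ b : κ, ⟪Y m ((Function.update k n b) m), Y n ((Function.update k n b) n)⟫_ℂ
        = ⟪Y m (k m), Y n b⟫_ℂ := by
      intro b
      rw [Function.update_of_ne hmn, Function.update_self]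
    simp_rw [this]
    rw [← inner_sum, hY, inner_zero_right]
  rw [h2] at h
  have hc : (Fintype.card κ : ℂ) ≠ 0 := by exact_mod_cast Fintype.card_ne_zero
  have h3 := h.symm
  rw [nsmul_eq_mul] at h3
  exact (mul_eq_zero.1 h3).resolve_left hc

theorem diag_sum {ι κ : Type} [Fintype ι] [DecidableEq ι] [Fintype κ] [Nonempty κ]
    (g : κ → ℝ) (m : ι) :
    av (fun k : ι → κ => g (k m)) = av g := by
  have h := upd_sum (fun k : ι → κ => g (k m)) m
  simp only [Function.update_self, Finset.sum_const, Finset.card_univ, nsmul_eq_mul] at h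
  have hc : (Fintype.card κ : ℝ) ≠ 0 := by exact_mod_cast Fintype.card_ne_zero
  have hc2 : (Fintype.card (ι → κ) : ℝ) ≠ 0 := by exact_mod_cast Fintype.card_ne_zero
  unfold av
  field_simp
  linarith

theorem av_add {α : Type} [Fintype α] (f g : α → ℝ) :
    av (fun x => f x + g x) = av f + av g := by
  unfold av; rw [Finset.sum_add_distrib, mul_add]

theorem av_sum {α β : Type} [Fintype α] [Fintype β] (f : β → α → ℝ) :
    av (fun x => ∑ b, f b x) = ∑ b, av (f b) := by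
  unfold av; rw [Finset.sum_comm, Finset.mul_sum]

theorem av_const {α : Type} [Fintype α] [Nonempty α] (c : ℝ) :
    av (fun _ : α => c) = c := by
  unfold av
  have hc : (Fintype.card α : ℝ) ≠ 0 := by exact_mod_cast Fintype.card_ne_zero
  simp only [Finset.sum_const, Finset.card_univ, nsmul_eq_mul]
  field_simp

/-- orthogonality of independent centred variables -/
theorem orth_av {ι κ : Type} [Fintype ι] [DecidableEq ι] [Fintype κ] [Nonempty κ]
    (Y : ι → κ → H) (hY : ∀ m, ∑ b, Y m b = 0) :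
    av (fun k : ι → κ => ‖∑ m, Y m (k m)‖ ^ 2) = ∑ m, av (fun j => ‖Y m j‖ ^ 2) := by
  have e : ∀ k : ι → κ, ‖∑ m, Y m (k m)‖ ^ 2 =
      ∑ m, ∑ n, (⟪Y m (k m), Y n (k n)⟫_ℂ).re := by
    intro k
    have := inner_self_eq_norm_sq (𝕜 := ℂ) (∑ m, Y m (k m))
    rw [← this, sum_inner]
    simp_rw [inner_sum]
    simp
  simp_rw [e]
  rw [av_sum]
  apply Finset.sum_congr rfl
  intro m _
  rw [av_sum, Finset.sum_eq_single m]
  · rw [← diag_sum (ι := ι) (fun j => ‖Y m j‖ ^ 2) m]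
    congr 1
    funext k
    exact inner_self_eq_norm_sq (𝕜 := ℂ) (Y m (k m))
  · intro n _ hn
    unfold av
    have h := orth_sum Y m n (Ne.symm hn) (hY n)
    have h2 : ∑ k : ι → κ, (⟪Y m (k m), Y n (k n)⟫_ℂ).re = 0 := by
      rw [← Complex.re_sum, h, Complex.zero_re]
    rw [h2, mul_zero]
  · intro h; exact absurd (Finset.mem_univ m) h

theorem c1 : S_C1 := by
  intro H _ _ ι _ _ v
  have h := orth_av (H := H) (ι := ι) (κ := Fin 4) (fun m j => (I ^ (j : ℕ)) • v m) (by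
    intro m
    rw [← Finset.sum_smul]
    have : ∑ j : Fin 4, (I : ℂ) ^ (j : ℕ) = 0 := by
      simp [Fin.sum_univ_four, I_sq, I_pow_three]
    rw [this, zero_smul])
  rw [h]
  apply Finset.sum_congr rfl
  intro m _
  have : (fun j : Fin 4 => ‖(I ^ (j : ℕ)) • v m‖ ^ 2) = fun _ => ‖v m‖ ^ 2 := by
    funext j
    rw [norm_smul, norm_pow, norm_I, one_pow, one_mul]
  rw [this, av_const]

theorem c3 : S_C3 := by
  intro H _ _ ι _ _ K hK X
  have : Nonempty (Fin K) := ⟨⟨0, hK⟩⟩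
  set μ : ι → H := fun m => (K : ℂ)⁻¹ • ∑ j, X m j with hμ
  have hKc : (K : ℂ) ≠ 0 := by exact_mod_cast hK.ne'
  have hKr : (K : ℝ) ≠ 0 := by exact_mod_cast hK.ne'
  set Y : ι → Fin K → H := fun m j => X m j - μ m with hY
  have hY0 : ∀ m, ∑ b, Y m b = 0 := by
    intro m
    simp only [hY, Finset.sum_sub_distrib, Finset.sum_const, Finset.card_univ, Fintype.card_fin]
    rw [hμ]
    simp only
    rw [← Nat.cast_smul_eq_nsmul ℂ, smul_smul, mul_inv_cancel₀ hKc, one_smul, sub_self]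
  set S : H := ∑ m, μ m with hS
  -- the centred part
  have h1 : ∀ k : ι → Fin K, ‖∑ m, X m (k m)‖ ^ 2 =
      ‖S‖ ^ 2 + 2 * (⟪S, ∑ m, Y m (k m)⟫_ℂ).re + ‖∑ m, Y m (k m)‖ ^ 2 := by
    intro k
    have : ∑ m, X m (k m) = S + ∑ m, Y m (k m) := by
      rw [hS, ← Finset.sum_add_distrib]
      apply Finset.sum_congr rfl
      intro m _
      simp [hY]
    rw [this]
    have := norm_add_sq (𝕜 := ℂ) S (∑ m, Y m (k m))
    rw [this]; rfl
  have h2 : av (fun k : ι → Fin K => (⟪S, ∑ m, Y m (k m)⟫_ℂ).re) = 0 := by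
    have : (fun k : ι → Fin K => (⟪S, ∑ m, Y m (k m)⟫_ℂ).re) =
        fun k => ∑ m, (fun j => (⟪S, Y m j⟫_ℂ).re) (k m) := by
      funext k
      rw [inner_sum]; simp
    rw [this, av_sum]
    apply Finset.sum_eq_zero
    intro m _
    rw [diag_sum (ι := ι) (fun j => (⟪S, Y m j⟫_ℂ).re) m]
    unfold av
    rw [← Complex.re_sum, ← inner_sum, hY0, inner_zero_right, Complex.zero_re, mul_zero]
  have h3 := orth_av Y hY0
  have h4 : av (fun k : ι → Fin K => ‖∑ m, X m (k m)‖ ^ 2) =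
      ‖S‖ ^ 2 + ∑ m, av (fun j => ‖Y m j‖ ^ 2) := by
    simp_rw [h1]
    rw [av_add, av_add, h3]
    have h5 : av (fun k : ι → Fin K => 2 * (⟪S, ∑ m, Y m (k m)⟫_ℂ).re) = 0 := by
      have : av (fun k : ι → Fin K => 2 * (⟪S, ∑ m, Y m (k m)⟫_ℂ).re) =
          2 * av (fun k : ι → Fin K => (⟪S, ∑ m, Y m (k m)⟫_ℂ).re) := by
        unfold av; rw [← Finset.mul_sum]; ring
      rw [this, h2, mul_zero]
    rw [h5, av_const, add_zero]
  rw [h4]
  gcongr with m _
  -- variance is at most the second moment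
  have h6 : ∀ j, ‖X m j‖ ^ 2 = ‖μ m‖ ^ 2 + 2 * (⟪μ m, Y m j⟫_ℂ).re + ‖Y m j‖ ^ 2 := by
    intro j
    have : X m j = μ m + Y m j := by simp [hY]
    rw [this]
    have := norm_add_sq (𝕜 := ℂ) (μ m) (Y m j)
    rw [this]; rfl
  have h7 : av (fun j : Fin K => ‖X m j‖ ^ 2) = ‖μ m‖ ^ 2 + av (fun j => ‖Y m j‖ ^ 2) := by
    simp_rw [h6]
    rw [av_add, av_add, av_const]
    have : av (fun j : Fin K => 2 * (⟪μ m, Y m j⟫_ℂ).re) = 0 := by
      unfold av
      rw [← Finset.mul_sum, ← Complex.re_sum, ← inner_sum, hY0, inner_zero_right, Complex.zero_re]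
      ring
    rw [this, add_zero]
  rw [h7]
  have := sq_nonneg ‖μ m‖
  linarith

end Pool.Agent.W28.CB
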